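import Pool.Agent.H858.CG.Sgn

/-!
# The distance of the even projector from the algebraic operators, on products

Let `W` be a Weil cohomology theory with coefficient field `K` (characteristic zero) for smooth proper
varieties over a field. Let `d(X)` be the smallest rank of an operator `π⁺ - u` on `H(X)`, where `π⁺`
is the projector onto the even cohomology and `u` is a `K`-combination of algebraic correspondences
of any degrees; `d(X) = 0` is the sign conjecture for `X`. Let `b(X)` be the sum of the Betti numbers
and `r(X)` the rank of the group of the cycles of all codimensions modulo numerical equivalence.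

* `r(Y) d(X) ≤ d(X × Y) ≤ d(X) b(Y) + b(X) d(Y) - 2 d(X) d(Y)` for all `X` and `Y`.
* If all cohomology of `Y` is algebraic (`r(Y) = b(Y)`, for example for projective spaces,
  Grassmannians, toric varieties), then `d(X × Y) = b(Y) d(X)`: the distance is multiplicative.
* `r(X)^n d(X) ≤ d(X^(n+1)) ≤ (b(X)^(n+1) - (b(X) - 2 d(X))^(n+1)) / 2`.
* In particular `C⁺(X)` holds if for one `Y` one algebraic operator on `H(X × Y)` differs from `π⁺` by
  an operator of rank less than `r(Y)`.

The lower bound: take dual systems of `r = r(Y)` algebraic classes on `Y`; an operator `θ` on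
`H(X × Y)` gives an `r × r` matrix with entries in the algebra `A` of the algebraic operators on
`H(X)`, and `θ - π⁺` has at least the rank of the matrix `(θ_st - δ_st π⁺)`. By induction on `r`: the
Fitting decomposition of `θ_11` (polynomials in `θ_11`) gives an idempotent `ε` in `A` and `ζ` in `A`
which inverts `θ_11 - π⁺` on the image of `(ε - π⁺)^2`, although `π⁺` is not in `A`; the elimination
with the pivot `ζ` changes the other entries only by elements of `A`, and the rank of the pivot is at
least `rank (ε - π⁺) ≥ d(X)`.
-/

open CategoryTheory AlgebraicGeometry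

universe u v

namespace Pool.Agent.Results.MP_56c18a_ag.DistanceOfProducts

open Pool.Agent.H914 Pool.Agent.H914.VarClass Pool.Agent.H914.VarClass.Obj
  Pool.Agent.H914.WeilCohomology Pool.Agent.H447 Pool.Agent.Y133.Half
open Pool.Agent.Q55.Lr (evenDist)
open Pool.Agent.Q55.Rate (totalBetti)

variable {k : Type u} [Field k] {𝒱 : VarClass k} {ops : CycleOps 𝒱}

/-- **The distance of the even projector from the algebraic operators on products.** -/
theorem result (W : WeilCohomology.{u, v} ops) (X : 𝒱.Obj) :
    (evenDist W X = 0 ↔ SignStd W X) ∧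
    (∀ Y : 𝒱.Obj, cycRank ops Y * evenDist W X ≤ evenDist W (X.prod Y) ∧
      evenDist W (X.prod Y) + 2 * (evenDist W X * evenDist W Y) ≤
        evenDist W X * totalBetti W Y + totalBetti W X * evenDist W Y ∧
      (cycRank ops Y = totalBetti W Y →
        evenDist W (X.prod Y) = totalBetti W Y * evenDist W X) ∧
      (evenDist W (X.prod Y) < cycRank ops Y → SignStd W X)) ∧
    ∀ n : ℕ, cycRank ops X ^ n * evenDist W X ≤ evenDist W (pw X n) ∧
      2 * evenDist W (pw X n) + (totalBetti W X - 2 * evenDist W X) ^ (n + 1) ≤
        totalBetti W X ^ (n + 1) := by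
  refine ⟨Pool.Agent.Q55.Lr.edist_eq_zero, fun Y => ⟨Pool.Agent.H858.CG.even_lower W X Y,
    Pool.Agent.H858.CG.even_upper W X Y, Pool.Agent.H858.CG.even_cellular W X Y, fun h => ?_⟩,
    Pool.Agent.H858.CG.even_pow W X⟩
  rw [← Pool.Agent.Q55.Lr.edist_eq_zero]
  by_contra hne
  have h1 := Pool.Agent.H858.CG.even_lower W X Y
  have h2 : cycRank ops Y * 1 ≤ cycRank ops Y * evenDist W X :=
    Nat.mul_le_mul_left _ (Nat.one_le_iff_ne_zero.2 hne)
  omega

end Pool.Agent.Results.MP_56c18a_ag.DistanceOfProducts
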