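import Pool.Agent.H367.OS.GWu
import Pool.Agent.H367.OS.FldP

/-!
# The sign conjecture over all perfect fields and one sequence of cubics over the integers

A relation `r` of size `m` is one of the equations `x_i x_j = x_l`, `x_i + x_j = x_l`, `x_i = 1` with
`i, j, l < m`; the relations are numbered, the number of `r` is `ν(r)` (`relNum`). Let `G_m` be the
following polynomial with integral coefficients (`univG ℤ m`). There are variables `x_i` and `z_ij` for
`i, j < m`, a variable `c_r` for every relation `r`, and variables `y_{r,l}` for all relations `r` and
`l < (m + 1) 2 ^ ν(r)`. The equations (`eqnG`) are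

  `z_ij - x_i x_j`,  `c_r ^ 2 - c_r`,  `c_r ρ_r`,  `(1 - c_r) y_{r,l}`,

where `ρ_r` is the linear polynomial `z_ij - x_l`, `x_i + x_j - x_l` or `x_i - 1` of the relation.
`G_m` is the sum of the equations multiplied by further variables `t_e`, one for each equation. It has
degree three. Let `C_m` be the affine cubic hypersurface `G_m = 1` (`cubG R m` over the ring `R`); it is
smooth over the integers.

Let `k` be a prime field (`ℚ` or `𝔽_p`); we consider de Rham cohomology if `k = ℚ`, and crystalline
cohomology if `k = 𝔽_p`. For a smooth projective scheme `Y` over `k` let `A^n(Y)` be the `ℚ`-vector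
space of the classes of algebraic cycles of codimension `n` on `Y_k̄`, and let `B^n(Y)` be the space
of the motivated classes (André) of codimension `n` on `Y_k̄`: the classes `pr_*(a · *b)` for
algebraic classes `a`, `b` on `Y_k̄ × Z`, where `Z` is smooth and projective and `*` is the Lefschetz
involution. Both are additive functors of the Chow motive of `Y`, and `A^n(Y) ⊆ B^n(Y)`. The Lefschetz
standard conjecture is true for all smooth projective schemes over `k̄` (`Lefschetz`) if and only if
`A^n(Y) = B^n(Y)` for all `n` and `Y` (André): the inverses of the Lefschetz operators are motivated.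

For a separated scheme `X` of finite type over `k` let `W(X)` be the weight complex (Gillet, Soulé,
Bondarko; a complex of Chow motives over `k` with rational coefficients, for the cohomology with compact
supports; `W(X) = h(X)` for smooth projective `X`), and put `A^{n,i}(X) = H^i(A^n(W(X)))` and
`B^{n,i}(X) = H^i(B^n(W(X)))`. `BijAt C Prod.fst n X` says that the maps `A^{n,i}(X) → B^{n,i}(X)` are
isomorphisms for this `n` and all `i`.

For a smooth proper scheme `X` over a perfect field `K` which contains `k` let `Sign K X` be the
statement `C⁺(X)` of question Q1: the even Künneth projector is algebraic. `Q1At k Sign` is question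
Q1 for the fields of the characteristic of `k`. It is equivalent to the Lefschetz standard conjecture
over `k̄` (library, `MP_4ca46c_ag.AllFields`, which includes the sign conjecture; one may pass to `K̄`
by taking means over conjugates, and from smooth proper schemes to smooth projective ones by
alterations).

**Theorem.** Let `E_m` be the number of the equations, and for `N ∈ ℕ` let
`idx m n N = n + (m + 1) N + E_m - 1`.

(1) Question Q1 has a positive answer for all smooth proper schemes over all perfect fields of the
characteristic of `k`, if and only if the Lefschetz standard conjecture is true over `k̄`, and if and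
only if the maps `A^{n, i}(C_m) → B^{n, i}(C_m)` are isomorphisms for all `n` and `i`, for infinitely
many `m`.

(2) For every `n`, all motivated classes of codimension `n` on the schemes `Y_k̄`, `Y` smooth and
projective over `k`, are algebraic if and only if the maps `A^{idx m n N, i}(C_m) → B^{idx m n N,
i}(C_m)` are isomorphisms for all `N` and `i`, for infinitely many `m`.

(3) The hypersurfaces `C_m` decide the statements (`Decides`): for every affine scheme `Spec B` of
finite type over `k` and all large `m` there is an `N` such that for `0 ≤ n ≤ m` the statement with
the index `n` for `Spec B` is equivalent to the one with the index `idx m n N` for `C_m`; and for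
every separated scheme `X` of finite type and all large `m`, the statements for `C_m` imply the
statements for `X`.

(4) `G_m` has integral coefficients and degree at most three, and `C_m` is smooth over all rings.

The hypotheses are standard: localisation sequences, affine bundles and products with `𝔾_m`
(`IsWeightPair`); the weight complex of a scheme of dimension at most `d` consists of direct factors of
motives of smooth projective varieties of dimension at most `d`, so that the groups vanish outside of
the codimensions `0, …, d` (`PVanish`, `GenAt`).

Idea of the proof. The projection of `C_m` to the affine space with the coordinates `x, z, c, y` is an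
affine bundle over the complement of the zero set `W_m` of the equations. The scheme `W_m` is the
disjoint union, over all sets `s` of relations (`c_r = 1` for `r ∈ s` and `c_r = 0` for the others), of
the products `X_s × 𝔸 ^ ((m + 1) N(s))`, where `X_s` is the affine scheme defined by the relations in
`s` and `N(s) = ∑_{r ∈ s} 2 ^ ν(r)`. The numbers `N(s)` are different, and the dimension of `X_s` is at
most `m`. So the invariant of `W_m` with the index `q + (m + 1) N(s)`, `0 ≤ q ≤ m`, is the invariant of
`X_s` with the index `q`; the other components do not contribute. Every affine scheme of finite type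
over a prime field is an `X_s`, for all large `m`.

The universal system of relations is the one of helper854 (`Pool.Agent.H854.SQ`).
-/

set_option autoImplicit false

open CategoryTheory CategoryTheory.Limits AlgebraicGeometry Pool.Agent.Y116.UV Pool.Agent.Z125.UN
  Pool.Agent.Q193.LT Pool.Agent.Q49.WU Pool.Agent.H854.SQ Pool.Agent.H367.OS Pool.Agent.Q148.LI

universe w



namespace Pool.Agent.Results.MP_56c18a_ag.OneSequenceOverTheIntegers

/-- Question Q1 for all perfect fields of the characteristic of `k`. -/
def Q1At (k : Type) [Field k] (Sign : ∀ (K : Type) [Field K], Sch K → Prop) :
    Prop :=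
  ∀ (K : Type) [Field K] [Algebra k K] [PerfectField K] (X : Sch K),
    SmoothProper X → Sign K X

/-- The reduction to the Lefschetz standard conjecture over the algebraic closure of the prime field,
which says that motivated classes are algebraic. -/
structure Describes (k : Type) [Field k] (C : PairData.{w} k (ℤ × ℤ) ℚ)
    (Sign : ∀ (K : Type) [Field K], Sch K → Prop) (Lefschetz : Prop) : Prop where
  allFields : Q1At k Sign ↔ Lefschetz
  motivated : Lefschetz ↔ ∀ Y : Sch k, SmoothProj Y → ∀ n : ℤ, BijAt C Prod.fst n Y

/-- **The sign conjecture over all perfect fields and one sequence of cubics over the integers.** See the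
explanations above. -/
theorem result {k : Type} [Field k] (hk : IsPrimeField k) {C : PairData.{w} k (ℤ × ℤ) ℚ}
    (weight : IsWeightPair C) (vanish : PVanish C Prod.fst) (generated : GenAt C Prod.fst)
    (point : BijAll C (aff k k)) {Sign : ∀ (K : Type) [Field K], Sch K → Prop}
    {Lefschetz : Prop} (h : Describes k C Sign Lefschetz) :
    List.TFAE [
      Q1At k Sign,
      Lefschetz,
      ∃ᶠ m in Filter.atTop, ∀ n : ℤ, BijAt C Prod.fst n (cubG k m)] ∧
    (∀ n : ℕ, (∀ Y : Sch k, SmoothProj Y → BijAt C Prod.fst n Y) ↔
      ∃ᶠ m in Filter.atTop, ∀ N : ℕ, BijAt C Prod.fst (idx m n N) (cubG k m)) ∧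
    Decides (BijAt C Prod.fst) ∧
    ∀ m : ℕ, (univG ℤ m).totalDegree ≤ 3 ∧
      ∀ (R : Type) [CommRing R], MvPolynomial.map (Int.castRingHom R) (univG ℤ m) = univG R m ∧
        Smooth (cubG R m).hom := by
  have hd : Decides (BijAt C Prod.fst) :=
    decides_pair hk generated weight graded_weight vanish point
  have h1 : (∀ Y : Sch k, SmoothProj Y → ∀ n : ℤ, BijAt C Prod.fst n Y) ↔
      ∃ᶠ m in Filter.atTop, ∀ n : ℤ, BijAt C Prod.fst n (cubG k m) := hd.all.out 1 0
  refine ⟨?_, fun n => (hd.index n).out 1 0, hd, cubG_facts⟩
  tfae_have 1 ↔ 2 := h.allFields
  tfae_have 2 ↔ 3 := h.motivated.trans h1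
  tfae_finish

end Pool.Agent.Results.MP_56c18a_ag.OneSequenceOverTheIntegers
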